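import Mathlib

/-!
# The discrepancy of `n x` modulo one and the rational approximations of `x`
-/

set_option autoImplicit false

namespace Pool.Agent.V8H31.Disc

open Finset

/-- the sawtooth sum -/
noncomputable def W (x : ℝ) (N : ℕ) (y : ℝ) : ℝ :=
  ∑ i ∈ range N, ((⌊y + i * x⌋ : ℝ) - (y + i * x) + 1 / 2)

lemma W_zero (x y : ℝ) : W x 0 y = 0 := by simp [W]

lemma W_add (x : ℝ) (M N : ℕ) (y : ℝ) : W x (M + N) y = W x M y + W x N (y + M * x) := by
  unfold W
  rw [sum_range_add]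
  congr 1
  refine sum_congr rfl fun i _ => ?_
  have e : y + ((M + i : ℕ) : ℝ) * x = y + M * x + i * x := by push_cast; ring
  rw [e]

lemma res_sum (q : ℕ) (hq : 0 < q) (a m : ℤ) (h : IsCoprime a (q : ℤ)) :
    ∑ i ∈ range q, ((m + i * a) % (q : ℤ)) = ∑ i ∈ range q, (i : ℤ) := by
  have hq' : (0 : ℤ) < q := by exact_mod_cast hq
  have himg : (range q).image (fun i : ℕ => ((m + i * a) % (q : ℤ)).toNat) = range q := by
    apply Finset.eq_of_subset_of_card_le
    · intro k hk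
      obtain ⟨i, _, rfl⟩ := mem_image.1 hk
      rw [mem_range]
      have h1 := Int.emod_nonneg (m + i * a) hq'.ne'
      have h2 := Int.emod_lt_of_pos (m + i * a) hq'
      omega
    · rw [card_image_of_injOn]
      intro i hi j hj hij
      simp only [coe_range, Set.mem_Iio] at hi hj
      simp only at hij
      have h1 := Int.emod_nonneg (m + i * a) hq'.ne'
      have h2 := Int.emod_nonneg (m + j * a) hq'.ne'
      have h3 : (m + i * a) % (q : ℤ) = (m + j * a) % (q : ℤ) := by omega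
      have h4 : (q : ℤ) ∣ (m + i * a) - (m + j * a) := Int.ModEq.dvd (Int.ModEq.symm h3)
      have h5 : (q : ℤ) ∣ ((i : ℤ) - j) * a := by
        have : (m + i * a) - (m + j * a) = ((i : ℤ) - j) * a := by ring
        rwa [this] at h4
      have h6 : (q : ℤ) ∣ (i : ℤ) - j := h.symm.dvd_of_dvd_mul_right h5
      obtain ⟨c, hc⟩ := h6
      have hi' : (i : ℤ) < q := by exact_mod_cast hi
      have hj' : (j : ℤ) < q := by exact_mod_cast hj
      have hc0 : c = 0 := by
        by_contra hc0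
        rcases lt_or_gt_of_ne hc0 with h7 | h7
        · have : (q : ℤ) * c ≤ -q := by nlinarith
          have hj0 : (0 : ℤ) ≤ i := Int.natCast_nonneg _
          omega
        · have : (q : ℤ) ≤ q * c := by nlinarith
          have hj0 : (0 : ℤ) ≤ j := Int.natCast_nonneg _
          omega
      rw [hc0, mul_zero] at hc
      omega
  have hinj : Set.InjOn (fun i : ℕ => ((m + i * a) % (q : ℤ)).toNat) (range q : Set ℕ) := by
    rw [← Finset.card_image_iff, himg]
  conv_rhs => rw [← himg]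
  rw [sum_image hinj]
  refine sum_congr rfl fun i _ => ?_
  have h1 := Int.emod_nonneg (m + i * a) hq'.ne'
  omega

lemma div_sum (q : ℕ) (hq : 0 < q) (a m : ℤ) (h : IsCoprime a (q : ℤ)) :
    2 * ∑ i ∈ range q, ((m + i * a) / (q : ℤ)) = 2 * m + (a - 1) * (q - 1) := by
  have hq' : (0 : ℤ) < q := by exact_mod_cast hq
  have h1 : ∑ i ∈ range q, (m + i * a) =
      q * ∑ i ∈ range q, ((m + i * a) / (q : ℤ)) + ∑ i ∈ range q, ((m + i * a) % (q : ℤ)) := by
    rw [mul_sum, ← sum_add_distrib]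
    refine sum_congr rfl fun i _ => ?_
    rw [Int.mul_ediv_add_emod]
  rw [res_sum q hq a m h, sum_add_distrib, sum_const, card_range, ← sum_mul] at h1
  have h2 : 2 * ∑ i ∈ range q, (i : ℤ) = q * (q - 1) := by
    have := Finset.sum_range_id_mul_two q
    have h3 : ((∑ i ∈ range q, i : ℕ) : ℤ) * 2 = q * (q - 1) := by
      rw [← Nat.cast_ofNat, ← Nat.cast_mul, this, Nat.cast_mul, Nat.cast_sub hq]
      simp
    push_cast at h3
    linarith
  have h3 : (q : ℤ) * (2 * ∑ i ∈ range q, ((m + i * a) / (q : ℤ))) =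
      q * (2 * m + (a - 1) * (q - 1)) := by
    simp only [nsmul_eq_mul] at h1
    linear_combination (-2) * h1 + (a - 1) * h2
  exact mul_left_cancel₀ hq'.ne' h3

lemma floor_rat (q : ℕ) (hq : 0 < q) (a : ℤ) (z : ℝ) (i : ℕ) :
    ⌊z + i * ((a : ℝ) / q)⌋ = (⌊(q : ℝ) * z⌋ + i * a) / (q : ℤ) := by
  have hq' : (q : ℝ) ≠ 0 := by exact_mod_cast hq.ne'
  have e : z + i * ((a : ℝ) / q) = ((q : ℝ) * z + ((i * a : ℤ) : ℝ)) / (q : ℕ) := by
    push_cast
    field_simp
  rw [e, Int.floor_div_natCast, Int.floor_add_intCast]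

lemma block (x : ℝ) (q n : ℕ) (hq : 0 < q) (hqn : q ≤ n) (a : ℤ) (h : IsCoprime a (q : ℤ))
    (hx : |(q : ℝ) * x - a| ≤ 1 / (n + 1)) (y : ℝ) : |W x q y| ≤ 2 := by
  have hq' : (0 : ℝ) < q := by exact_mod_cast hq
  have hn' : (q : ℝ) ≤ n := by exact_mod_cast hqn
  obtain ⟨η, hη⟩ : ∃ η : ℝ, η = (q : ℝ) * x - a := ⟨_, rfl⟩
  rw [← hη] at hx
  have hη1 : |η| ≤ 1 / q := hx.trans (one_div_le_one_div_of_le hq' (by linarith))
  have hηq : |η| * q ≤ 1 := by rwa [le_div_iff₀ hq'] at hη1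
  have hxe : x = a / q + η / q := by
    rw [hη]
    field_simp
    ring
  have hup : ∀ i ∈ range q, ⌊y + i * x⌋ ≤ (⌊(q : ℝ) * y⌋ + 1 + i * a) / (q : ℤ) := by
    intro i hi
    have hi' : (i : ℝ) ≤ q := by exact_mod_cast (mem_range.1 hi).le
    have h1 := floor_rat q hq a (y + 1 / q) i
    have e1 : (q : ℝ) * (y + 1 / q) = q * y + ((1 : ℤ) : ℝ) := by
      push_cast
      field_simp
    rw [e1, Int.floor_add_intCast] at h1
    rw [← h1]
    apply Int.floor_le_floor
    have h2 : (i : ℝ) * (η / q) ≤ 1 / q := by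
      rw [mul_div_assoc']
      apply div_le_div_of_nonneg_right _ hq'.le
      calc (i : ℝ) * η ≤ i * |η| := mul_le_mul_of_nonneg_left (le_abs_self _) (Nat.cast_nonneg _)
        _ ≤ q * |η| := mul_le_mul_of_nonneg_right hi' (abs_nonneg _)
        _ ≤ 1 := by linarith
    have e2 : y + i * x = y + i * (a / q) + i * (η / q) := by rw [hxe]; ring
    rw [e2]
    linarith
  have hlo : ∀ i ∈ range q, (⌊(q : ℝ) * y⌋ - 1 + i * a) / (q : ℤ) ≤ ⌊y + i * x⌋ := by
    intro i hi
    have hi' : (i : ℝ) ≤ q := by exact_mod_cast (mem_range.1 hi).le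
    have h1 := floor_rat q hq a (y - 1 / q) i
    have e1 : (q : ℝ) * (y - 1 / q) = q * y - ((1 : ℤ) : ℝ) := by
      push_cast
      field_simp
    rw [e1, Int.floor_sub_intCast] at h1
    rw [← h1]
    apply Int.floor_le_floor
    have h2 : -(1 / q) ≤ (i : ℝ) * (η / q) := by
      rw [mul_div_assoc', ← neg_div]
      apply div_le_div_of_nonneg_right _ hq'.le
      have h3 : -(i * |η|) ≤ (i : ℝ) * η := by
        have := mul_le_mul_of_nonneg_left (neg_abs_le η) (Nat.cast_nonneg (α := ℝ) i)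
        linarith
      have h4 : (i : ℝ) * |η| ≤ q * |η| := mul_le_mul_of_nonneg_right hi' (abs_nonneg _)
      linarith
    have e2 : y + i * x = y + i * (a / q) + i * (η / q) := by rw [hxe]; ring
    rw [e2]
    linarith
  have hsup : 2 * ∑ i ∈ range q, (⌊y + i * x⌋ : ℤ) ≤ 2 * (⌊(q : ℝ) * y⌋ + 1) + (a - 1) * (q - 1) := by
    rw [← div_sum q hq a (⌊(q : ℝ) * y⌋ + 1) h]
    have := sum_le_sum hup
    linarith
  have hslo : 2 * (⌊(q : ℝ) * y⌋ - 1) + (a - 1) * (q - 1) ≤ 2 * ∑ i ∈ range q, (⌊y + i * x⌋ : ℤ) := by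
    rw [← div_sum q hq a (⌊(q : ℝ) * y⌋ - 1) h]
    have := sum_le_sum hlo
    linarith
  have hsup' : 2 * ∑ i ∈ range q, ((⌊y + i * x⌋ : ℤ) : ℝ) ≤
      2 * ((⌊(q : ℝ) * y⌋ : ℝ) + 1) + (a - 1) * (q - 1) := by exact_mod_cast hsup
  have hslo' : 2 * ((⌊(q : ℝ) * y⌋ : ℝ) - 1) + (a - 1) * (q - 1) ≤
      2 * ∑ i ∈ range q, ((⌊y + i * x⌋ : ℤ) : ℝ) := by exact_mod_cast hslo
  have hW : 2 * W x q y = 2 * ∑ i ∈ range q, ((⌊y + i * x⌋ : ℤ) : ℝ) - 2 * q * y
      - (a + η) * (q - 1) + q := by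
    unfold W
    rw [sum_add_distrib, sum_sub_distrib, sum_add_distrib, ← sum_mul, sum_const, sum_const,
      card_range]
    have h2 : 2 * ∑ i ∈ range q, (i : ℝ) = q * (q - 1) := by
      have := Finset.sum_range_id_mul_two q
      have h3 : ((∑ i ∈ range q, i : ℕ) : ℝ) * 2 = q * (q - 1) := by
        rw [← Nat.cast_ofNat, ← Nat.cast_mul, this, Nat.cast_mul, Nat.cast_sub hq]
        simp
      push_cast at h3
      linarith
    have h4 : (q : ℝ) * x = a + η := by rw [hη]; ring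
    simp only [nsmul_eq_mul]
    linear_combination (-x) * h2 - ((q : ℝ) - 1) * h4
  have hfl := Int.floor_le ((q : ℝ) * y)
  have hfl' := Int.lt_floor_add_one ((q : ℝ) * y)
  have hη3 : |η * (q - 1)| ≤ 1 := by
    rw [abs_mul, abs_of_nonneg (by
      have : (1 : ℝ) ≤ q := by exact_mod_cast hq
      linarith : (0 : ℝ) ≤ (q : ℝ) - 1)]
    have := abs_nonneg η
    nlinarith
  have hη4 := abs_le.1 hη3
  rw [abs_le]
  constructor <;> nlinarith [hη4.1, hη4.2]

lemma blocks (x : ℝ) (q n : ℕ) (hq : 0 < q) (hqn : q ≤ n) (a : ℤ) (h : IsCoprime a (q : ℤ))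
    (hx : |(q : ℝ) * x - a| ≤ 1 / (n + 1)) (b : ℕ) (y : ℝ) : |W x (b * q) y| ≤ 2 * b := by
  induction b generalizing y with
  | zero => simp [W_zero]
  | succ b ih =>
    have e : (b + 1) * q = b * q + q := by ring
    rw [e, W_add]
    refine (abs_add_le _ _).trans ?_
    have h1 := ih y
    have h2 := block x q n hq hqn a h hx (y + ((b * q : ℕ) : ℝ) * x)
    push_cast
    push_cast at h2
    linarith

/-- every real number has a fraction at level `n` -/
lemma dirichlet (x : ℝ) (n : ℕ) (hn : 0 < n) : ∃ (q : ℕ) (a : ℤ), 0 < q ∧ q ≤ n ∧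
    IsCoprime a (q : ℤ) ∧ |(q : ℝ) * x - a| ≤ 1 / (n + 1) := by
  obtain ⟨r, h1, h2⟩ := Real.exists_rat_abs_sub_le_and_den_le x hn
  refine ⟨r.den, r.num, r.den_pos, h2, ?_, ?_⟩
  · rw [Int.isCoprime_iff_gcd_eq_one]
    exact r.reduced
  · have hd : (0 : ℝ) < r.den := by exact_mod_cast r.den_pos
    have hr : (r : ℝ) = r.num / r.den := by exact_mod_cast (Rat.num_div_den r).symm
    have e : (r.den : ℝ) * x - r.num = r.den * (x - r) := by
      rw [hr]
      field_simp
    rw [e, abs_mul, abs_of_pos hd]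
    calc (r.den : ℝ) * |x - r| ≤ r.den * (1 / ((n + 1) * r.den)) :=
          mul_le_mul_of_nonneg_left h1 hd.le
      _ = 1 / (n + 1) := by field_simp

/-- if all the fractions at the levels `n ≤ N` have large denominators the sums are small -/
lemma W_le (x B : ℝ) (hB : 0 ≤ B) (N : ℕ) (h : ∀ n : ℕ, 1 ≤ n → n ≤ N → ∀ (q : ℕ) (a : ℤ), 0 < q → q ≤ n →
    IsCoprime a (q : ℤ) → |(q : ℝ) * x - a| ≤ 1 / (n + 1) → (n : ℝ) ≤ B * q) :
    ∀ (k m : ℕ), m < 2 ^ k → m ≤ N → ∀ y, |W x m y| ≤ 2 * B * k := by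
  intro k
  induction k with
  | zero =>
    intro m hm _ y
    have : m = 0 := by simpa using hm
    rw [this, W_zero]
    simp
  | succ k ih =>
    intro m hm hmN y
    rcases Nat.eq_zero_or_pos m with h0 | h0
    · rw [h0, W_zero, abs_zero]
      positivity
    obtain ⟨q, a, hq, hqn, hc, ha⟩ := dirichlet x m h0
    have h1 := h m h0 hmN q a hq hqn hc ha
    have hq' : (0 : ℝ) < q := by exact_mod_cast hq
    have hr : m % q < q := Nat.mod_lt _ hq
    have hdm : m / q * q + m % q = m := by rw [mul_comm]; exact Nat.div_add_mod m q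
    have hd1 : 1 ≤ m / q := (Nat.one_le_div_iff hq).2 hqn
    have hrm : m % q < 2 ^ k := by
      have : q ≤ m / q * q := Nat.le_mul_of_pos_left _ hd1
      rw [pow_succ] at hm
      omega
    have h2 : |W x m y| ≤ |W x (m / q * q) y| + |W x (m % q) (y + ((m / q * q : ℕ) : ℝ) * x)| := by
      conv_lhs => rw [← hdm, W_add]
      exact abs_add_le _ _
    have h3 := blocks x q m hq hqn a hc ha (m / q) y
    have h4 := ih (m % q) hrm ((Nat.mod_le _ _).trans hmN) (y + ((m / q * q : ℕ) : ℝ) * x)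
    have h5 : ((m / q : ℕ) : ℝ) ≤ B := by
      have h6 : ((m / q * q : ℕ) : ℝ) ≤ m := by exact_mod_cast Nat.div_mul_le_self m q
      push_cast at h6
      exact le_of_mul_le_mul_right (h6.trans h1) hq'
    push_cast
    linarith

/-- the number of the `n`, `1 ≤ n ≤ N`, with `n x` modulo one in `[u, v)` -/
noncomputable def count (x : ℝ) (N : ℕ) (u v : ℝ) : ℕ :=
  {n : ℕ | 1 ≤ n ∧ n ≤ N ∧ u ≤ Int.fract (n * x) ∧ Int.fract (n * x) < v}.ncard

/-- The discrepancy of `x, 2 x, …, N x` modulo one: the supremum over `0 ≤ u ≤ v ≤ 1` of the absolute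
value of `(number of n ≤ N with {n x} in [u, v)) / N - (v - u)`. -/
noncomputable def discrepancy (x : ℝ) (N : ℕ) : ℝ :=
  sSup {r : ℝ | ∃ u v : ℝ, 0 ≤ u ∧ u ≤ v ∧ v ≤ 1 ∧ r = |(count x N u v : ℝ) / N - (v - u)|}

lemma floor_diff (z u v : ℝ) (hu : 0 ≤ u) (huv : u ≤ v) (hv : v ≤ 1) :
    ((⌊z - u⌋ : ℤ) : ℝ) - ((⌊z - v⌋ : ℤ) : ℝ) = if u ≤ Int.fract z ∧ Int.fract z < v then 1 else 0 := by
  have hz : z = ⌊z⌋ + Int.fract z := (Int.floor_add_fract z).symm
  have h0 := Int.fract_nonneg z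
  have h1 := Int.fract_lt_one z
  have key : ∀ w : ℝ, 0 ≤ w → w ≤ 1 → ((⌊z - w⌋ : ℤ) : ℝ) = ⌊z⌋ - (if Int.fract z < w then 1 else 0) := by
    intro w hw0 hw1
    split_ifs with h
    · have : ⌊z - w⌋ = ⌊z⌋ - 1 := by
        rw [Int.floor_eq_iff]
        push_cast
        constructor <;> linarith
      rw [this]; push_cast; ring
    · have : ⌊z - w⌋ = ⌊z⌋ := by
        rw [Int.floor_eq_iff]
        push Not at h
        constructor <;> linarith
      rw [this]; ring
  rw [key u hu (huv.trans hv), key v (hu.trans huv) hv]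
  by_cases h2 : Int.fract z < u
  · have h3 : Int.fract z < v := lt_of_lt_of_le h2 huv
    have h4 : ¬ (u ≤ Int.fract z ∧ Int.fract z < v) := fun h => by linarith [h.1]
    rw [if_pos h2, if_pos h3, if_neg h4]; ring
  · push Not at h2
    by_cases h3 : Int.fract z < v
    · rw [if_neg (by linarith), if_pos h3, if_pos ⟨h2, h3⟩]; ring
    · rw [if_neg (by linarith), if_neg h3, if_neg (fun h => h3 h.2)]; ring

lemma count_eq (x : ℝ) (N : ℕ) (u v : ℝ) (hu : 0 ≤ u) (huv : u ≤ v) (hv : v ≤ 1) :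
    (count x N u v : ℝ) = W x N (x - u) - W x N (x - v) + N * (v - u) := by
  classical
  have h1 : (count x N u v : ℝ) = ∑ i ∈ range N,
      (if u ≤ Int.fract (((i : ℝ) + 1) * x) ∧ Int.fract (((i : ℝ) + 1) * x) < v then (1 : ℝ) else 0) := by
    rw [sum_boole]
    norm_cast
    unfold count
    have e : {n : ℕ | 1 ≤ n ∧ n ≤ N ∧ u ≤ Int.fract (n * x) ∧ Int.fract (n * x) < v} =
        (((range N).filter fun i : ℕ => u ≤ Int.fract (((i : ℝ) + 1) * x) ∧
          Int.fract (((i : ℝ) + 1) * x) < v).image (fun i => i + 1) : Finset ℕ) := by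
      ext n
      simp only [Set.mem_ofPred_eq, coe_image, coe_filter, mem_range, Set.mem_image]
      constructor
      · rintro ⟨a, b, c, d⟩
        refine ⟨n - 1, ⟨by omega, ?_⟩, by omega⟩
        have : ((n - 1 : ℕ) : ℝ) + 1 = n := by
          rw [Nat.cast_sub a]; push_cast; ring
        rw [this]
        exact ⟨c, d⟩
      · rintro ⟨i, ⟨a, b⟩, rfl⟩
        refine ⟨by omega, by omega, ?_⟩
        push_cast
        exact b
    rw [e, Set.ncard_coe_finset, card_image_of_injective _ (add_left_injective 1)]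
    norm_cast
  rw [h1]
  unfold W
  rw [← sum_sub_distrib]
  have h2 : (N : ℝ) * (v - u) = ∑ i ∈ range N, (v - u) := by rw [sum_const, card_range, nsmul_eq_mul]
  rw [h2, ← sum_add_distrib]
  refine sum_congr rfl fun i _ => ?_
  rw [← floor_diff _ u v hu huv hv]
  have e1 : x - u + i * x = ((i : ℝ) + 1) * x - u := by ring
  have e2 : x - v + i * x = ((i : ℝ) + 1) * x - v := by ring
  rw [e1, e2]
  ring

/-- **The main lemma**: a large discrepancy gives a fraction. -/
theorem exists_fraction (x : ℝ) (N : ℕ) (hN : 1 ≤ N) (δ : ℝ) (hδ : 0 < δ) (hD : δ ≤ discrepancy x N) :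
    ∃ (q : ℕ) (a : ℤ), 0 < q ∧ q ≤ N ∧ (q : ℝ) * δ ≤ 8 * (Nat.log 2 N + 1) ∧
      (q : ℝ) * |(q : ℝ) * x - a| * (δ * N) ≤ 8 * (Nat.log 2 N + 1) := by
  have hN' : (0 : ℝ) < N := by exact_mod_cast hN
  obtain ⟨L, hL⟩ : ∃ L : ℝ, L = (Nat.log 2 N : ℝ) + 1 := ⟨_, rfl⟩
  have hL1 : 1 ≤ L := by
    rw [hL]
    have : (0 : ℝ) ≤ Nat.log 2 N := Nat.cast_nonneg _
    linarith
  rw [← hL]
  obtain ⟨B, hB⟩ : ∃ B : ℝ, B = δ * N / (8 * L) := ⟨_, rfl⟩
  have hB0 : 0 < B := by rw [hB]; positivity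
  by_contra hcon
  push Not at hcon
  have h1 : ∀ n : ℕ, 1 ≤ n → n ≤ N → ∀ (q : ℕ) (a : ℤ), 0 < q → q ≤ n →
      IsCoprime a (q : ℤ) → |(q : ℝ) * x - a| ≤ 1 / (n + 1) → (n : ℝ) ≤ B * q := by
    intro n hn1 hnN q a hq hqn hc ha
    by_contra hlt
    push Not at hlt
    have hq' : (0 : ℝ) < q := by exact_mod_cast hq
    have hn' : (n : ℝ) ≤ N := by exact_mod_cast hnN
    have hn0 : (0 : ℝ) < n := by exact_mod_cast hn1
    rw [hB, div_mul_eq_mul_div, div_lt_iff₀ (by positivity)] at hlt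
    have h2 : (q : ℝ) * δ ≤ 8 * L := by
      have h3 : δ * N * q < N * (8 * L) := lt_of_lt_of_le hlt
        (mul_le_mul_of_nonneg_right hn' (by positivity))
      have h4 : (N : ℝ) * (q * δ) ≤ N * (8 * L) := by nlinarith
      exact le_of_mul_le_mul_left h4 hN'
    have h5 := hcon q a hq (hqn.trans hnN) h2
    have h6 : (q : ℝ) * |(q : ℝ) * x - a| * (δ * N) ≤ 8 * L := by
      calc (q : ℝ) * |(q : ℝ) * x - a| * (δ * N) ≤ q * (1 / (n + 1)) * (δ * N) := by gcongr
        _ = (δ * N * q) / (n + 1) := by ring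
        _ ≤ (n * (8 * L)) / (n + 1) := by gcongr
        _ ≤ 8 * L := by
          rw [div_le_iff₀ (by positivity)]
          nlinarith
    linarith
  have h2 := W_le x B hB0.le N h1 (Nat.log 2 N + 1) N (Nat.lt_pow_succ_log_self (by norm_num) N) le_rfl
  have h3 : discrepancy x N ≤ 4 * B * L / N := by
    unfold discrepancy
    refine csSup_le ⟨|(count x N 0 0 : ℝ) / N - (0 - 0)|, 0, 0, le_rfl, le_rfl, zero_le_one, rfl⟩ ?_
    rintro r ⟨u, v, hu, huv, hv, rfl⟩
    rw [count_eq x N u v hu huv hv]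
    have e : (W x N (x - u) - W x N (x - v) + N * (v - u)) / N - (v - u) =
        (W x N (x - u) - W x N (x - v)) / N := by
      field_simp
      ring
    rw [e, abs_div, abs_of_pos hN']
    apply div_le_div_of_nonneg_right _ hN'.le
    refine (abs_sub _ _).trans ?_
    have h4 := h2 (x - u)
    have h5 := h2 (x - v)
    push_cast at h4 h5
    rw [← hL] at h4 h5
    linarith
  have h4 : 4 * B * L / N = δ / 2 := by
    rw [hB]
    field_simp
    norm_num
  rw [h4] at h3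
  linarith

lemma discrepancy_bdd (x : ℝ) (N : ℕ) : ∀ r ∈ {r : ℝ | ∃ u v : ℝ, 0 ≤ u ∧ u ≤ v ∧ v ≤ 1 ∧
    r = |(count x N u v : ℝ) / N - (v - u)|}, r ≤ 1 := by
  rintro r ⟨u, v, hu, huv, hv, rfl⟩
  have h1 : (count x N u v : ℝ) / N ≤ 1 := by
    rcases Nat.eq_zero_or_pos N with h | h
    · rw [h]; simp
    · have hN' : (0 : ℝ) < N := by exact_mod_cast h
      rw [div_le_one hN']
      have : count x N u v ≤ N := by
        unfold count
        have h2 : {n : ℕ | 1 ≤ n ∧ n ≤ N ∧ u ≤ Int.fract (n * x) ∧ Int.fract (n * x) < v} ⊆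
            (Finset.Icc 1 N : Set ℕ) := by
          rintro n ⟨h1, h2, -⟩
          simp [h1, h2]
        have h3 := Set.ncard_le_ncard h2 (Finset.finite_toSet _)
        rwa [Set.ncard_coe_finset, Nat.card_Icc, Nat.add_sub_cancel] at h3
      exact_mod_cast this
  have h2 : 0 ≤ (count x N u v : ℝ) / N := by positivity
  rw [abs_le]
  constructor <;> linarith

lemma discrepancy_nonneg (x : ℝ) (N : ℕ) : 0 ≤ discrepancy x N := by
  unfold discrepancy
  apply Real.sSup_nonneg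
  rintro r ⟨u, v, -, -, -, rfl⟩
  exact abs_nonneg _

lemma discrepancy_le_one (x : ℝ) (N : ℕ) : discrepancy x N ≤ 1 :=
  csSup_le ⟨|(count x N 0 0 : ℝ) / N - (0 - 0)|, 0, 0, le_rfl, le_rfl, zero_le_one, rfl⟩
    (discrepancy_bdd x N)

end Pool.Agent.V8H31.Disc
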