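import Pool.Agent.V8H31.Disc
import Pool.Agent.H43R2.Cplx.EMeas

/-!
# The discrepancies of the multiples of two forms in `ξ` and `e`
-/

set_option autoImplicit false

namespace Pool.Agent.V8H31.Disc

open Finset Filter Topology

lemma log_bound (ε : ℝ) (hε : 0 < ε) : ∃ C : ℝ, 0 < C ∧ ∀ N : ℕ, 1 ≤ N →
    ((Nat.log 2 N : ℝ) + 1) ≤ C * (N : ℝ) ^ ε := by
  refine ⟨1 / (ε * Real.log 2) + 1, by positivity, fun N hN => ?_⟩
  have hN' : (1 : ℝ) ≤ N := by exact_mod_cast hN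
  have h1 : (Nat.log 2 N : ℝ) ≤ Real.logb 2 N := Real.natLog_le_logb N 2
  have h2 : Real.log N ≤ (N : ℝ) ^ ε / ε := Real.log_le_rpow_div (by linarith) hε
  have h3 : (1 : ℝ) ≤ (N : ℝ) ^ ε := Real.one_le_rpow hN' hε.le
  have hl2 : 0 < Real.log 2 := Real.log_pos one_lt_two
  have h4 : Real.logb 2 N ≤ 1 / (ε * Real.log 2) * (N : ℝ) ^ ε := by
    unfold Real.logb
    rw [div_le_iff₀ hl2]
    calc Real.log N ≤ (N : ℝ) ^ ε / ε := h2
      _ = _ := by field_simp
  nlinarith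

/-- two numbers whose difference is a multiple of `e` -/
theorem joint (P P' Δ Γ : ℤ) (hΔ : Δ ≠ 0) (ε : ℝ) (hε : 0 < ε) : ∃ C : ℝ, 0 < C ∧
    ∀ x x' : ℝ, P * x - P' * x' = Δ * Real.exp 1 + Γ → ∀ N : ℕ, 1 ≤ N →
      discrepancy x N * discrepancy x' N * min (discrepancy x N) (discrepancy x' N) ≤
        C * (N : ℝ) ^ (ε - 1) := by
  obtain ⟨c, hc, hmeas⟩ := Pool.Agent.H43R2.Cplx.EMeas.measure (ε / 5) (by positivity)
  obtain ⟨C₁, hC₁, hlog⟩ := log_bound (ε / 5) (by positivity)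
  obtain ⟨K, hK⟩ : ∃ K : ℝ, K = (|(Δ : ℝ)| ^ (1 + ε / 5) * (|(P : ℝ)| + |(P' : ℝ)|) * (8 * C₁) ^ 3) := ⟨_, rfl⟩
  have hK0 : 0 ≤ K := by rw [hK]; positivity
  refine ⟨K / c + 1, by positivity, fun x x' hxx N hN => ?_⟩
  have hN' : (1 : ℝ) ≤ N := by exact_mod_cast hN
  have hN0 : (0 : ℝ) < N := by linarith
  obtain ⟨δ, hδ⟩ : ∃ δ, δ = discrepancy x N := ⟨_, rfl⟩
  obtain ⟨δ', hδ'⟩ : ∃ δ', δ' = discrepancy x' N := ⟨_, rfl⟩
  have h0 : 0 ≤ δ := by rw [hδ]; exact discrepancy_nonneg x N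
  have h0' : 0 ≤ δ' := by rw [hδ']; exact discrepancy_nonneg x' N
  rw [← hδ, ← hδ']
  have hR : 0 < (N : ℝ) ^ (ε - 1) := by positivity
  rcases h0.eq_or_lt with h00 | hpos
  · rw [← h00]
    simp only [zero_mul]
    positivity
  rcases h0'.eq_or_lt with h00 | hpos'
  · rw [← h00]
    simp only [mul_zero, zero_mul]
    positivity
  obtain ⟨q, a, hq, hqN, h1, h2⟩ := exists_fraction x N hN δ hpos hδ.le
  obtain ⟨q', a', hq', hqN', h1', h2'⟩ := exists_fraction x' N hN δ' hpos' hδ'.le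
  obtain ⟨L, hL⟩ : ∃ L : ℝ, L = (Nat.log 2 N : ℝ) + 1 := ⟨_, rfl⟩
  rw [← hL] at h1 h2 h1' h2'
  have hL1 : 1 ≤ L := by
    rw [hL]
    have : (0 : ℝ) ≤ Nat.log 2 N := Nat.cast_nonneg _
    linarith
  have hLN : L ≤ C₁ * (N : ℝ) ^ (ε / 5) := by rw [hL]; exact hlog N hN
  have hqR : (0 : ℝ) < q := by exact_mod_cast hq
  have hqR' : (0 : ℝ) < q' := by exact_mod_cast hq'
  obtain ⟨η, hη⟩ : ∃ η : ℝ, η = |(q : ℝ) * x - a| := ⟨_, rfl⟩
  obtain ⟨η', hη'⟩ : ∃ η' : ℝ, η' = |(q' : ℝ) * x' - a'| := ⟨_, rfl⟩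
  rw [← hη] at h2
  rw [← hη'] at h2'
  have hη0 : 0 ≤ η := by rw [hη]; exact abs_nonneg _
  have hη0' : 0 ≤ η' := by rw [hη']; exact abs_nonneg _
  -- the measure
  have hQ : 1 ≤ q * q' * Δ.natAbs := by
    have := Int.natAbs_pos.2 hΔ
    exact Nat.one_le_iff_ne_zero.2 (by positivity)
  obtain ⟨m, hm⟩ : ∃ m : ℤ, m = P * q' * a - P' * q * a' - q * q' * Γ := ⟨_, rfl⟩
  have hval : (q : ℝ) * q' * Δ * Real.exp 1 - m = P * q' * ((q : ℝ) * x - a) - P' * q * ((q' : ℝ) * x' - a') := by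
    rw [hm]
    push_cast
    linear_combination (-(q : ℝ) * q') * hxx
  have hup : |(q : ℝ) * q' * Δ * Real.exp 1 - m| ≤ |(P : ℝ)| * (q' * η) + |(P' : ℝ)| * (q * η') := by
    rw [hval, hη, hη']
    refine (abs_sub _ _).trans ?_
    rw [abs_mul, abs_mul, abs_mul, abs_mul, Nat.abs_cast, Nat.abs_cast]
    apply le_of_eq
    ring
  have hlow : c ≤ ((q : ℝ) * q' * |(Δ : ℝ)|) ^ (1 + ε / 5) * |(q : ℝ) * q' * Δ * Real.exp 1 - m| := by
    rcases lt_or_gt_of_ne hΔ with hneg | hp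
    · have h3 := hmeas (q * q' * Δ.natAbs) hQ (-m)
      have e1 : ((q * q' * Δ.natAbs : ℕ) : ℝ) = (q : ℝ) * q' * |(Δ : ℝ)| := by
        push_cast
        rw [Nat.cast_natAbs, Int.cast_abs]
      rw [e1] at h3
      have e2 : (q : ℝ) * q' * |(Δ : ℝ)| * Real.exp 1 - ((-m : ℤ) : ℝ) =
          -((q : ℝ) * q' * Δ * Real.exp 1 - m) := by
        have : (Δ : ℝ) < 0 := by exact_mod_cast hneg
        rw [abs_of_neg this]
        push_cast
        ring
      rwa [e2, abs_neg] at h3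
    · have h3 := hmeas (q * q' * Δ.natAbs) hQ m
      have e1 : ((q * q' * Δ.natAbs : ℕ) : ℝ) = (q : ℝ) * q' * |(Δ : ℝ)| := by
        push_cast
        rw [Nat.cast_natAbs, Int.cast_abs]
      rw [e1] at h3
      have e2 : (q : ℝ) * q' * |(Δ : ℝ)| * Real.exp 1 - m = (q : ℝ) * q' * Δ * Real.exp 1 - m := by
        have : (0 : ℝ) < Δ := by exact_mod_cast hp
        rw [abs_of_pos this]
      rwa [e2] at h3
  have hqq : (q : ℝ) * q' ≤ (N : ℝ) ^ (2 : ℝ) := by
    have a1 : (q : ℝ) ≤ N := by exact_mod_cast hqN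
    have a2 : (q' : ℝ) ≤ N := by exact_mod_cast hqN'
    rw [Real.rpow_two, sq]
    exact mul_le_mul a1 a2 hqR'.le hN0.le
  have hpow : ((q : ℝ) * q' * |(Δ : ℝ)|) ^ (1 + ε / 5) ≤
      (q * q') * (N : ℝ) ^ (2 * (ε / 5)) * |(Δ : ℝ)| ^ (1 + ε / 5) := by
    rw [Real.mul_rpow (by positivity) (abs_nonneg _), Real.rpow_add (by positivity), Real.rpow_one]
    apply mul_le_mul_of_nonneg_right _ (by positivity)
    apply mul_le_mul_of_nonneg_left _ (by positivity)
    rw [Real.rpow_mul hN0.le]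
    exact Real.rpow_le_rpow (by positivity) hqq (by positivity)
  obtain ⟨μ, hμ⟩ : ∃ μ, μ = min δ δ' := ⟨_, rfl⟩
  rw [← hμ]
  have hμ1 : μ ≤ δ := by rw [hμ]; exact min_le_left _ _
  have hμ2 : μ ≤ δ' := by rw [hμ]; exact min_le_right _ _
  have hμ0 : 0 < μ := by rw [hμ]; exact lt_min hpos hpos'
  -- the two terms
  have t1 : (q * q' : ℝ) * (q' * η) * (δ * δ' * μ * N) ≤ (8 * L) ^ 3 := by
    calc (q * q' : ℝ) * (q' * η) * (δ * δ' * μ * N) ≤ (q * q' : ℝ) * (q' * η) * (δ * δ' * δ' * N) := by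
          gcongr
      _ = (q' * δ') * (q' * δ') * (q * η * (δ * N)) := by ring
      _ ≤ (8 * L) * (8 * L) * (8 * L) := by gcongr
      _ = _ := by ring
  have t2 : (q * q' : ℝ) * (q * η') * (δ * δ' * μ * N) ≤ (8 * L) ^ 3 := by
    calc (q * q' : ℝ) * (q * η') * (δ * δ' * μ * N) ≤ (q * q' : ℝ) * (q * η') * (δ * δ' * δ * N) := by
          gcongr
      _ = (q * δ) * (q * δ) * (q' * η' * (δ' * N)) := by ring
      _ ≤ (8 * L) * (8 * L) * (8 * L) := by gcongr
      _ = _ := by ring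
  have hL3 : (8 * L) ^ 3 ≤ (8 * C₁) ^ 3 * (N : ℝ) ^ (3 * (ε / 5)) := by
    have e1 : (N : ℝ) ^ (3 * (ε / 5)) = ((N : ℝ) ^ (ε / 5)) ^ 3 := by
      rw [← Real.rpow_natCast, ← Real.rpow_mul hN0.le]
      congr 1
      push_cast
      ring
    rw [e1, ← mul_pow]
    apply pow_le_pow_left₀ (by positivity)
    linarith
  have hfin : c * (δ * δ' * μ * N) ≤ K * (N : ℝ) ^ ε := by
    have e3 : (N : ℝ) ^ ε = (N : ℝ) ^ (2 * (ε / 5)) * (N : ℝ) ^ (3 * (ε / 5)) := by
      rw [← Real.rpow_add hN0]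
      congr 1
      ring
    calc c * (δ * δ' * μ * N) ≤ (((q : ℝ) * q' * |(Δ : ℝ)|) ^ (1 + ε / 5) *
          |(q : ℝ) * q' * Δ * Real.exp 1 - m|) * (δ * δ' * μ * N) :=
          mul_le_mul_of_nonneg_right hlow (by positivity)
      _ ≤ (((q * q') * (N : ℝ) ^ (2 * (ε / 5)) * |(Δ : ℝ)| ^ (1 + ε / 5)) *
          (|(P : ℝ)| * (q' * η) + |(P' : ℝ)| * (q * η'))) * (δ * δ' * μ * N) := by gcongr
      _ = ((N : ℝ) ^ (2 * (ε / 5)) * |(Δ : ℝ)| ^ (1 + ε / 5)) *
          (|(P : ℝ)| * ((q * q' : ℝ) * (q' * η) * (δ * δ' * μ * N)) +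
            |(P' : ℝ)| * ((q * q' : ℝ) * (q * η') * (δ * δ' * μ * N))) := by ring
      _ ≤ ((N : ℝ) ^ (2 * (ε / 5)) * |(Δ : ℝ)| ^ (1 + ε / 5)) *
          (|(P : ℝ)| * (8 * L) ^ 3 + |(P' : ℝ)| * (8 * L) ^ 3) := by gcongr
      _ = ((N : ℝ) ^ (2 * (ε / 5)) * |(Δ : ℝ)| ^ (1 + ε / 5)) *
          ((|(P : ℝ)| + |(P' : ℝ)|) * (8 * L) ^ 3) := by ring
      _ ≤ ((N : ℝ) ^ (2 * (ε / 5)) * |(Δ : ℝ)| ^ (1 + ε / 5)) *
          ((|(P : ℝ)| + |(P' : ℝ)|) * ((8 * C₁) ^ 3 * (N : ℝ) ^ (3 * (ε / 5)))) := by gcongr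
      _ = _ := by rw [hK, e3]; ring
  have hfin2 : δ * δ' * μ ≤ K / c * (N : ℝ) ^ (ε - 1) := by
    rw [Real.rpow_sub hN0, Real.rpow_one, div_mul_div_comm, le_div_iff₀ (by positivity)]
    linarith
  linarith

lemma far (x : ℝ) (hx : Irrational x) (Q : ℕ) : ∃ n : ℕ, 0 < n ∧ ∀ q : ℕ, 0 < q → q ≤ Q → ∀ a : ℤ,
    1 / ((n : ℝ) + 1) < |(q : ℝ) * x - a| := by
  induction Q with
  | zero => exact ⟨1, one_pos, fun q h1 h2 => by omega⟩
  | succ Q ih =>
    obtain ⟨n, hn, h⟩ := ih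
    have hd : 0 < |((Q + 1 : ℕ) : ℝ) * x - round (((Q + 1 : ℕ) : ℝ) * x)| := by
      rw [abs_pos, sub_ne_zero]
      have h1 : Irrational (((Q + 1 : ℕ) : ℝ) * x) := hx.natCast_mul (by omega)
      exact h1.ne_int _
    obtain ⟨n', hn'⟩ := exists_nat_one_div_lt hd
    refine ⟨max n n', lt_max_of_lt_left hn, fun q hq hqQ a => ?_⟩
    rcases Nat.lt_or_ge q (Q + 1) with h2 | h2
    · refine lt_of_le_of_lt ?_ (h q hq (by omega) a)
      apply one_div_le_one_div_of_le (by positivity)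
      have : (n : ℝ) ≤ (max n n' : ℕ) := by exact_mod_cast le_max_left _ _
      linarith
    · have e : q = Q + 1 := by omega
      subst e
      have h3 : |((Q + 1 : ℕ) : ℝ) * x - round (((Q + 1 : ℕ) : ℝ) * x)| ≤ |((Q + 1 : ℕ) : ℝ) * x - a| :=
        round_le _ _
      refine lt_of_le_of_lt ?_ (hn'.trans_le h3)
      apply one_div_le_one_div_of_le (by positivity)
      have : (n' : ℝ) ≤ (max n n' : ℕ) := by exact_mod_cast le_max_right _ _
      linarith

lemma W_triv (x : ℝ) (r : ℕ) (y : ℝ) : |W x r y| ≤ r := by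
  unfold W
  refine (abs_sum_le_sum_abs _ _).trans ?_
  calc _ ≤ ∑ i ∈ range r, (1 : ℝ) := by
        refine sum_le_sum fun i _ => ?_
        have h1 := Int.floor_le (y + i * x)
        have h2 := Int.lt_floor_add_one (y + i * x)
        rw [abs_le]
        constructor <;> linarith
    _ = r := by simp

/-- Weyl: a number is irrational if and only if its discrepancy tends to zero. -/
theorem irrational_iff (x : ℝ) : Irrational x ↔ Tendsto (fun N => discrepancy x N) atTop (𝓝 0) := by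
  constructor
  · intro hx
    rw [Metric.tendsto_atTop]
    intro δ hδ
    obtain ⟨Q, hQ⟩ := exists_nat_gt (16 / δ)
    obtain ⟨n, hn, hfar⟩ := far x hx Q
    obtain ⟨q, a, hq, hqn, hc, ha⟩ := dirichlet x n hn
    have hqQ : Q < q := by
      by_contra h
      push Not at h
      exact absurd ha (not_le.2 (hfar q hq h a))
    have hq' : (0 : ℝ) < q := by exact_mod_cast hq
    obtain ⟨M, hM⟩ := exists_nat_gt (8 * q / δ)
    refine ⟨max M 1, fun N hN => ?_⟩
    have hN1 : 1 ≤ N := (le_max_right _ _).trans hN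
    have hNM : (M : ℝ) ≤ N := by exact_mod_cast (le_max_left _ _).trans hN
    have hN' : (0 : ℝ) < N := by exact_mod_cast hN1
    rw [Real.dist_eq, sub_zero, abs_of_nonneg (discrepancy_nonneg _ _)]
    have hWN : ∀ y, |W x N y| ≤ 2 * (N / q) + q := by
      intro y
      have hdm : N / q * q + N % q = N := by rw [mul_comm]; exact Nat.div_add_mod N q
      have h2 : |W x N y| ≤ |W x (N / q * q) y| + |W x (N % q) (y + ((N / q * q : ℕ) : ℝ) * x)| := by
        conv_lhs => rw [← hdm, W_add]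
        exact abs_add_le _ _
      have h3 := blocks x q n hq hqn a hc ha (N / q) y
      have h4 := W_triv x (N % q) (y + ((N / q * q : ℕ) : ℝ) * x)
      have h5 : ((N % q : ℕ) : ℝ) ≤ q := by exact_mod_cast (Nat.mod_lt _ hq).le
      have h6 : ((N / q : ℕ) : ℝ) ≤ N / q := Nat.cast_div_le
      linarith
    have hD : discrepancy x N ≤ 4 / q + 2 * q / N := by
      unfold discrepancy
      refine csSup_le ⟨|(count x N 0 0 : ℝ) / N - (0 - 0)|, 0, 0, le_rfl, le_rfl, zero_le_one, rfl⟩ ?_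
      rintro r ⟨u, v, hu, huv, hv, rfl⟩
      rw [count_eq x N u v hu huv hv]
      have e : (W x N (x - u) - W x N (x - v) + N * (v - u)) / N - (v - u) =
          (W x N (x - u) - W x N (x - v)) / N := by
        field_simp
        ring
      rw [e, abs_div, abs_of_pos hN']
      have e2 : (4 : ℝ) / q + 2 * q / N = (2 * (N / q) + q + (2 * (N / q) + q)) / N := by
        field_simp
        ring
      rw [e2]
      apply div_le_div_of_nonneg_right _ hN'.le
      exact (abs_sub _ _).trans (add_le_add (hWN _) (hWN _))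
    have h1 : (4 : ℝ) / q ≤ δ / 4 := by
      have h2 : 16 / δ < q := hQ.trans (by exact_mod_cast hqQ)
      rw [div_lt_iff₀ hδ] at h2
      rw [div_le_iff₀ hq']
      linarith
    have h2 : 2 * q / N ≤ δ / 4 := by
      have h3 : 8 * q / δ < N := lt_of_lt_of_le hM hNM
      rw [div_lt_iff₀ hδ] at h3
      rw [div_le_iff₀ hN']
      linarith
    linarith
  · intro h
    by_contra hx
    unfold Irrational at hx
    push Not at hx
    obtain ⟨r, rfl⟩ := hx
    have hd : (0 : ℝ) < r.den := by exact_mod_cast r.den_pos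
    have hcount : ∀ N, count (r : ℝ) N (1 / (2 * r.den)) (1 / r.den) = 0 := by
      intro N
      unfold count
      rw [Set.ncard_eq_zero (Set.Finite.subset (Finset.finite_toSet (Finset.Icc 1 N)) (by
        rintro n ⟨h1, h2, -⟩
        simp [h1, h2]))]
      rw [Set.eq_empty_iff_forall_notMem]
      rintro n ⟨-, -, h3, h4⟩
      have hr : (r : ℝ) = r.num / r.den := by exact_mod_cast (Rat.num_div_den r).symm
      have e : Int.fract ((n : ℝ) * r) = ((n * r.num - ⌊(n : ℝ) * r⌋ * r.den : ℤ) : ℝ) / r.den := by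
        rw [← Int.self_sub_floor]
        push_cast
        rw [eq_div_iff hd.ne']
        have : (r : ℝ) * r.den = r.num := by
          rw [hr]
          field_simp
        linear_combination (n : ℝ) * this
      rw [e] at h3 h4
      rw [div_le_div_iff₀ (by positivity) hd] at h3
      rw [div_lt_div_iff₀ hd hd] at h4
      have h5 : ((n * r.num - ⌊(n : ℝ) * r⌋ * r.den : ℤ) : ℝ) < 1 := by
        by_contra h6
        push Not at h6
        nlinarith
      have h6 : (0 : ℝ) < ((n * r.num - ⌊(n : ℝ) * r⌋ * r.den : ℤ) : ℝ) := by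
        by_contra h7
        push Not at h7
        nlinarith
      have h7 : (n * r.num - ⌊(n : ℝ) * r⌋ * r.den : ℤ) < 1 := by exact_mod_cast h5
      have h8 : 0 < (n * r.num - ⌊(n : ℝ) * r⌋ * r.den : ℤ) := by exact_mod_cast h6
      omega
    have hlow : ∀ N, 1 / (2 * (r.den : ℝ)) ≤ discrepancy (r : ℝ) N := by
      intro N
      unfold discrepancy
      apply le_csSup ⟨1, discrepancy_bdd _ N⟩
      have hd1 : (1 : ℝ) ≤ r.den := by exact_mod_cast r.den_pos
      refine ⟨1 / (2 * r.den), 1 / r.den, by positivity, ?_, ?_, ?_⟩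
      · apply one_div_le_one_div_of_le hd
        linarith
      · rw [div_le_one hd]
        exact hd1
      · rw [hcount N]
        have e : ((0 : ℕ) : ℝ) / N - (1 / r.den - 1 / (2 * r.den)) = -(1 / (2 * (r.den : ℝ))) := by
          push_cast
          field_simp
          ring
        rw [e, abs_neg, abs_of_pos (by positivity)]
    have h1 := (tendsto_order.1 h).2 (1 / (2 * (r.den : ℝ))) (by positivity)
    obtain ⟨N, hN⟩ := h1.exists
    exact absurd hN (not_lt.2 (hlow N))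

end Pool.Agent.V8H31.Disc
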